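import Mathlib
import Pool.Agent.Lib.MP_13fe47_al.Defs
import Pool.Agent.Lib.MP_13fe47_al.Structure



/-!
For a finitely generated virtually abelian group the degree of twisted commutativity is the
infimum of the degrees of twisted commutativity of the finite quotients.
-/

open Finset Filter Topology
open scoped Pointwise
open Pool.Agent.Lib.MP_13fe47_al

namespace Pool.Agent.Results.MP_13fe47_al.Main

variable {G : Type*} [Group G] [DecidableEq G]

theorem wordBall_eq (X : Finset G) (n : ℕ) :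
    wordBall X n = ((insert 1 (X ∪ X⁻¹)) ^ n : Finset G) := by
  have hmem : ∀ x : G, x ∈ insert 1 (X ∪ X⁻¹) ↔ x = 1 ∨ x ∈ X ∨ x⁻¹ ∈ X := by
    intro x
    simp only [Finset.mem_insert, Finset.mem_union, Finset.mem_inv']
  ext g
  simp only [wordBall, Set.mem_ofPred_eq, Finset.mem_coe]
  constructor
  · rintro ⟨l, hl, hX, rfl⟩
    refine Finset.pow_subset_pow_right (Finset.mem_insert_self _ _) hl ?_
    clear hl
    induction l with
    | nil => simp
    | cons x l ih =>
      rw [List.length_cons, pow_succ', List.prod_cons]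
      refine Finset.mul_mem_mul ((hmem x).2 (Or.inr (hX x (by simp)))) (ih ?_)
      intro y hy
      exact hX y (List.mem_cons_of_mem _ hy)
  · intro hg
    induction n generalizing g with
    | zero =>
      simp only [pow_zero, Finset.mem_one] at hg
      exact ⟨[], le_rfl, by simp, by simp [hg]⟩
    | succ n ih =>
      rw [pow_succ', Finset.mem_mul] at hg
      obtain ⟨x, hx, y, hy, rfl⟩ := hg
      obtain ⟨l, hl, hX, rfl⟩ := ih y hy
      rcases (hmem x).1 hx with rfl | hx
      · exact ⟨l, by omega, hX, by simp⟩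
      · refine ⟨x :: l, by simpa using hl, ?_, by simp⟩
        intro z hz
        rcases List.mem_cons.1 hz with rfl | hz
        · exact hx
        · exact hX z hz

theorem gen_of_closure (X : Finset G) (hX : Subgroup.closure (X : Set G) = ⊤) (g : G) :
    ∃ n, g ∈ (insert 1 (X ∪ X⁻¹) : Finset G) ^ n := by
  have hinv : (insert 1 (X ∪ X⁻¹) : Finset G)⁻¹ = insert 1 (X ∪ X⁻¹) := by
    ext x
    simp only [Finset.mem_insert, Finset.mem_union, Finset.mem_inv', inv_inv, inv_eq_one]
    tauto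
  have hg : g ∈ Subgroup.closure (X : Set G) := hX ▸ Subgroup.mem_top g
  induction hg using Subgroup.closure_induction with
  | mem x hx => exact ⟨1, by simp [Finset.mem_coe.1 hx]⟩
  | one => exact ⟨0, by simp⟩
  | mul x y _ _ hx hy =>
    obtain ⟨m, hm⟩ := hx
    obtain ⟨n, hn⟩ := hy
    exact ⟨m + n, by rw [pow_add]; exact Finset.mul_mem_mul hm hn⟩
  | inv x _ hx =>
    obtain ⟨m, hm⟩ := hx
    refine ⟨m, ?_⟩
    rw [← hinv, inv_pow]
    exact Finset.inv_mem_inv hm

theorem main (H : Subgroup G) [H.FiniteIndex] (hH : ∀ a ∈ H, ∀ b ∈ H, a * b = b * a)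
    (X : Finset G) (hX : Subgroup.closure (X : Set G) = ⊤) (φ : G →* G) :
    tdcGen X φ = quotInf φ := by
  classical
  have hfg : Group.FG G := ⟨⟨X, hX⟩⟩
  set S : Finset G := insert 1 (X ∪ X⁻¹) with hS
  have h1 : (1 : G) ∈ S := Finset.mem_insert_self _ _
  have hinv : S⁻¹ = S := by
    ext x
    simp only [hS, Finset.mem_insert, Finset.mem_union, Finset.mem_inv', inv_inv, inv_eq_one]
    tauto
  have hgen : ∀ g : G, ∃ n, g ∈ S ^ n := gen_of_closure X hX
  have hfol : Tendsto (fun n : ℕ => ((S ^ (n + 1)).card : ℝ) / (S ^ n).card) atTop (𝓝 1) := by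
    let _ : CommGroup H := commGroupOf H hH
    have : (H.subtype).range.FiniteIndex := by rw [Subgroup.range_subtype]; infer_instance
    obtain ⟨K, hK⟩ := doubling H.subtype S h1 hgen
    exact folner_step S h1 hinv K hK
  have hpos : ∀ n, (0 : ℝ) < (S ^ n).card := fun n => by exact_mod_cast card_pow_pos S h1 n
  set ρ : ℕ → ℝ := fun n =>
    ((((S ^ n) ×ˢ (S ^ n)).filter (fun p => p.1 * p.2 = p.2 * φ p.1)).card : ℝ)
      / ((S ^ n).card : ℝ) ^ 2 with hρ
  have htdc : tdcGen X φ = limsup ρ atTop := by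
    unfold tdcGen
    congr 1
    funext n
    rw [wordBall_eq, Set.ncard_coe_finset, hρ, ← hS]
    simp only
    rw [← Set.ncard_coe_finset (((S ^ n) ×ˢ (S ^ n)).filter _)]
    congr 3
    ext p
    simp only [Set.mem_ofPred_eq, Finset.mem_coe, Finset.mem_filter, Finset.mem_product,
      and_assoc]
  have hρ0 : ∀ n, 0 ≤ ρ n := fun n => by positivity
  have hρ1 : ∀ n, ρ n ≤ 1 := fun n => by
    simp only [hρ]
    rw [div_le_one (pow_pos (hpos n) 2), sq]
    have := Finset.card_filter_le ((S ^ n) ×ˢ (S ^ n)) (fun p => p.1 * p.2 = p.2 * φ p.1)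
    rw [Finset.card_product] at this
    exact_mod_cast this
  have hupper : ∀ (N : Subgroup G) (_ : N.Normal) (_ : N.FiniteIndex) (h : N ≤ N.comap φ),
      limsup ρ atTop ≤ tdcFin (QuotientGroup.map N N φ h) := by
    intro N _ _ h
    have : Fintype (G ⧸ N) := Fintype.ofFinite _
    have h2 := equidist₂ (QuotientGroup.mk' N) (QuotientGroup.mk'_surjective N) S h1 hgen hfol
      (Finset.univ.filter (fun p : (G ⧸ N) × (G ⧸ N) =>
        p.1 * p.2 = p.2 * QuotientGroup.map N N φ h p.1))
    have h3 : tdcFin (QuotientGroup.map N N φ h) =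
        ((Finset.univ.filter (fun p : (G ⧸ N) × (G ⧸ N) =>
        p.1 * p.2 = p.2 * QuotientGroup.map N N φ h p.1)).card : ℝ) /
          (Fintype.card (G ⧸ N) : ℝ) ^ 2 := by
      unfold tdcFin
      rw [← Set.ncard_coe_finset, Nat.card_eq_fintype_card]
      congr 3
      ext p
      simp
    rw [h3, ← h2.limsup_eq]
    refine limsup_le_limsup (Eventually.of_forall fun n => ?_)
      (isCoboundedUnder_le_of_le atTop hρ0) h2.isBoundedUnder_le
    refine div_le_div_of_nonneg_right ?_ (by positivity)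
    refine Nat.cast_le.2 (Finset.card_le_card fun p hp => ?_)
    simp only [Finset.mem_filter, Finset.mem_univ, true_and] at hp ⊢
    refine ⟨hp.1, ?_⟩
    rw [← map_mul, hp.2, map_mul]
    rfl
  have hlower : ∀ K : ℕ, 0 < K →
      ∃ (N : Subgroup G) (_ : N.Normal) (_ : N.FiniteIndex) (h : N ≤ N.comap φ),
        tdcFin (QuotientGroup.map N N φ h) ≤ limsup ρ atTop + 1 / K := by
    intro K hK
    obtain ⟨N, hN1, hN2, h, hcount⟩ := exists_good_quot H hH φ K
    refine ⟨N, hN1, hN2, h, ?_⟩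
    have : Fintype (G ⧸ N) := Fintype.ofFinite _
    set Good : Finset ((G ⧸ N) × (G ⧸ N)) := Finset.univ.filter (fun p =>
      ∀ x y : G, (x : G ⧸ N) = p.1 → (y : G ⧸ N) = p.2 → x * y = y * φ x) with hGood
    have h2 := equidist₂ (QuotientGroup.mk' N) (QuotientGroup.mk'_surjective N) S h1 hgen hfol
      Good
    have h3 : (Good.card : ℝ) / (Fintype.card (G ⧸ N) : ℝ) ^ 2 ≤ limsup ρ atTop := by
      rw [← h2.limsup_eq]
      refine limsup_le_limsup (Eventually.of_forall fun n => ?_)
        h2.isCoboundedUnder_le (isBoundedUnder_of ⟨1, hρ1⟩)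
      refine div_le_div_of_nonneg_right ?_ (by positivity)
      refine Nat.cast_le.2 (Finset.card_le_card fun p hp => ?_)
      simp only [hGood, Finset.mem_filter, Finset.mem_univ, true_and] at hp ⊢
      exact ⟨hp.1, hp.2 p.1 p.2 rfl rfl⟩
    set Bad := {p : (G ⧸ N) × (G ⧸ N) | p.1 * p.2 = p.2 * QuotientGroup.map N N φ h p.1 ∧
      ¬ ∀ x y : G, (x : G ⧸ N) = p.1 → (y : G ⧸ N) = p.2 → x * y = y * φ x} with hBad
    have h4 : Set.ncard {p : (G ⧸ N) × (G ⧸ N) |
        p.1 * p.2 = p.2 * QuotientGroup.map N N φ h p.1} ≤ Good.card + Bad.ncard := by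
      rw [← Set.ncard_coe_finset]
      refine le_trans (Set.ncard_le_ncard ?_) (Set.ncard_union_le _ _)
      intro p hp
      by_cases hg : ∀ x y : G, (x : G ⧸ N) = p.1 → (y : G ⧸ N) = p.2 → x * y = y * φ x
      · left
        simpa [hGood] using hg
      · right
        exact ⟨hp, hg⟩
    have hF : (0 : ℝ) < (Fintype.card (G ⧸ N) : ℝ) ^ 2 := by
      have : 0 < Fintype.card (G ⧸ N) := Fintype.card_pos
      positivity
    have hK' : (0 : ℝ) < K := by exact_mod_cast hK
    have h5 : (Bad.ncard : ℝ) / (Fintype.card (G ⧸ N) : ℝ) ^ 2 ≤ 1 / K := by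
      rw [div_le_div_iff₀ hF hK', one_mul, mul_comm]
      rw [Nat.card_eq_fintype_card] at hcount
      exact_mod_cast hcount
    unfold tdcFin
    rw [Nat.card_eq_fintype_card]
    calc _ ≤ ((Good.card : ℝ) + Bad.ncard) / (Fintype.card (G ⧸ N) : ℝ) ^ 2 :=
          div_le_div_of_nonneg_right (by exact_mod_cast h4) hF.le
      _ = (Good.card : ℝ) / (Fintype.card (G ⧸ N) : ℝ) ^ 2 +
          (Bad.ncard : ℝ) / (Fintype.card (G ⧸ N) : ℝ) ^ 2 := add_div _ _ _
      _ ≤ _ := add_le_add h3 h5
  rw [htdc]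
  unfold quotInf
  refine le_antisymm ?_ ?_
  · refine le_csInf ?_ ?_
    · obtain ⟨N, hN1, hN2, h, _⟩ := hlower 1 one_pos
      exact ⟨_, N, hN1, hN2, h, rfl⟩
    · rintro _ ⟨N, hN1, hN2, h, rfl⟩
      exact hupper N hN1 hN2 h
  · refine le_of_forall_pos_le_add fun ε hε => ?_
    obtain ⟨K, hK⟩ := exists_nat_one_div_lt hε
    obtain ⟨N, hN1, hN2, h, hle⟩ := hlower (K + 1) (Nat.succ_pos _)
    refine le_trans (csInf_le ⟨limsup ρ atTop, ?_⟩ ⟨N, hN1, hN2, h, rfl⟩) ?_
    · rintro _ ⟨N, hN1, hN2, h, rfl⟩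
      exact hupper N hN1 hN2 h
    · push_cast at hle
      linarith

end Pool.Agent.Results.MP_13fe47_al.Main

/-- For every finitely generated virtually abelian group `G`, every finite generating set `X` and
every endomorphism `φ`, the degree of twisted commutativity `tdc_X(φ, G)` equals the infimum of
`tdc(φ̄, G / N)` over the `φ`-invariant normal subgroups `N` of finite index. -/
theorem Pool.Agent.Results.MP_13fe47_al.Main.result (G : Type*) [Group G]
    (hva : ∃ H : Subgroup G, H.FiniteIndex ∧ ∀ a ∈ H, ∀ b ∈ H, a * b = b * a)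
    (X : Finset G) (hX : Subgroup.closure (X : Set G) = ⊤) (φ : G →* G) :
    tdcGen X φ = quotInf φ := by
  classical
  obtain ⟨H, _, hH⟩ := hva
  exact Pool.Agent.Results.MP_13fe47_al.Main.main H hH X hX φ
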